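import Pool.Agent.H65.AD.TargetsA

/-!
# RBC: the roots of `B² = -D` modulo `4 A`
-/

set_option autoImplicit false

namespace Pool.Agent.H11.AD

open Pool.Agent.H31.CN Pool.Agent.H95.AD Pool.Agent.H65.AD

theorem pf_RBC : T_RBC := by
  intro D A hD hA
  obtain ⟨d, rfl⟩ : ∃ d, D = 4 * d + 3 := ⟨D / 4, by omega⟩
  have h1 : (((4 * d + 3 : ℕ) : ℤ) + 1) / 4 = ((d + 1 : ℕ) : ℤ) := by
    push_cast
    omega
  have h2 : ∀ b : ℕ, (2 * b + 1) ^ 2 + (4 * d + 3) = 4 * (b ^ 2 + b + (d + 1)) := by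
    intro b
    ring
  have h3 : ∀ b : ℕ, 4 * A ∣ (2 * b + 1) ^ 2 + (4 * d + 3) ↔ A ∣ b ^ 2 + b + (d + 1) := by
    intro b
    rw [h2]
    exact Nat.mul_dvd_mul_iff_left (by norm_num)
  have h4 : ∀ b : ℕ, ((A : ℤ) ∣ 1 * (b : ℤ) ^ 2 + 1 * (b : ℤ) + ((d + 1 : ℕ) : ℤ)) ↔
      A ∣ b ^ 2 + b + (d + 1) := by
    intro b
    have h5 : (1 : ℤ) * (b : ℤ) ^ 2 + 1 * (b : ℤ) + ((d + 1 : ℕ) : ℤ) =
        ((b ^ 2 + b + (d + 1) : ℕ) : ℤ) := by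
      push_cast
      ring
    rw [h5, Int.natCast_dvd_natCast]
  rw [h1]
  unfold nrt
  symm
  refine Finset.card_bij (fun b _ => 2 * b + 1) ?_ ?_ ?_
  · intro b hb
    obtain ⟨h5, h6⟩ := Finset.mem_filter.1 hb
    have h7 := Finset.mem_range.1 h5
    exact Finset.mem_filter.2 ⟨Finset.mem_range.2 (by omega), (h3 b).2 ((h4 b).1 h6)⟩
  · intro b _ b' _ h
    have h' : 2 * b + 1 = 2 * b' + 1 := h
    omega
  · intro B hB
    obtain ⟨h5, h6⟩ := Finset.mem_filter.1 hB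
    have h7 := Finset.mem_range.1 h5
    have hodd : B % 2 = 1 := by
      by_contra hc
      obtain ⟨b, rfl⟩ : ∃ b, B = 2 * b := ⟨B / 2, by omega⟩
      obtain ⟨c, hc'⟩ := h6
      have h8 : (2 * b) ^ 2 + (4 * d + 3) = 4 * (b ^ 2 + d) + 3 := by ring
      have h9 : 4 * A * c = 4 * (A * c) := by ring
      omega
    obtain ⟨b, rfl⟩ : ∃ b, B = 2 * b + 1 := ⟨B / 2, by omega⟩
    refine ⟨b, ?_, rfl⟩
    exact Finset.mem_filter.2 ⟨Finset.mem_range.2 (by omega), (h4 b).2 ((h3 b).1 h6)⟩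

end Pool.Agent.H11.AD
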