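import Pool.Agent.H63.AD.UAA

/-!
# UAB: absolute convergence of the sum of the coefficients
-/

set_option autoImplicit false

open MeasureTheory Set Filter
open scoped Real Nat

namespace Pool.Agent.H11.AD

open Pool.Agent.H31.CN Pool.Agent.H95.AD
open Pool.Agent.H63.AD (k0_le tau_le tau_nonneg)

theorem ac_zero_left (e m n D : ℕ) : ac e m 0 n D = 0 := by
  rw [ac]; simp

theorem ac_zero_right (e m A D : ℕ) : ac e m A 0 D = 0 := by
  rw [ac, tau]; simp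

theorem ac_le (hK0 : T_K0) (e m A n D : ℕ) (he : 1 ≤ e) (hA : 1 ≤ A) (hD : 1 ≤ D) :
    |ac e m A n D| ≤ 8 * |Vk ((e : ℝ) ^ 2 * A / ((m : ℝ) * Real.sqrt D))| *
      ((n : ℝ) * Real.exp (-((n : ℝ) / A))) := by
  rcases Nat.eq_zero_or_pos n with hn | hn
  · rw [hn, ac_zero_right]
    simp
  · have hA0 : (0 : ℝ) < A := by exact_mod_cast hA
    have he1 : (1 : ℝ) ≤ e := by exact_mod_cast he
    have he0 : (0 : ℝ) < e := by linarith
    obtain ⟨h1, h2⟩ := k0_le hK0 n A D hn hA hD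
    obtain ⟨w, hw⟩ : ∃ w : ℝ, w = Vk ((e : ℝ) ^ 2 * A / ((m : ℝ) * Real.sqrt D)) := ⟨_, rfl⟩
    obtain ⟨K, hK⟩ : ∃ K : ℝ, K = k0 (π * n * Real.sqrt D / A) := ⟨_, rfl⟩
    rw [← hK] at h1 h2
    rw [ac, ← hw, ← hK, abs_mul, abs_mul, abs_of_nonneg h1,
      abs_of_nonneg (div_nonneg (mul_nonneg (by norm_num) (tau_nonneg n))
        (by positivity : (0 : ℝ) ≤ (e : ℝ) * A))]
    have h3 : 4 * tau n / ((e : ℝ) * A) ≤ 4 * n / A := by
      rw [div_le_div_iff₀ (by positivity) hA0]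
      have h4 := tau_le n
      have hn0 : (0 : ℝ) ≤ n := Nat.cast_nonneg n
      calc 4 * tau n * A ≤ 4 * n * A := by gcongr
        _ = 4 * n * (1 * A) := by ring
        _ ≤ 4 * n * (e * A) := by gcongr
    calc 4 * tau n / ((e : ℝ) * A) * |w| * K
        ≤ 4 * n / A * |w| * (2 * A * Real.exp (-((n : ℝ) / A))) := by
          gcongr
      _ = 8 * |w| * ((n : ℝ) * Real.exp (-((n : ℝ) / A))) := by
          field_simp
          ring

theorem pf_UAB (hK0 : T_K0) (hVK : T_VK) : T_UAB := by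
  intro e m D he hm hD
  obtain ⟨C, hC, hb⟩ := Pool.Agent.H63.AD.lin
  obtain ⟨V, hV, hv, -⟩ := hVK
  have he1 : (1 : ℝ) ≤ e := by exact_mod_cast he
  have he0 : (0 : ℝ) < e := by linarith
  have hm0 : (0 : ℝ) < m := by exact_mod_cast hm
  have hD0 : (0 : ℝ) < Real.sqrt D := Real.sqrt_pos.2 (by exact_mod_cast hD)
  have hF : ∀ A n : ℕ, 1 ≤ A → |ac e m A n D| * (A : ℝ) ≤
      8 * A * |Vk ((e : ℝ) ^ 2 * A / ((m : ℝ) * Real.sqrt D))| *
      ((n : ℝ) * Real.exp (-((n : ℝ) / A))) := by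
    intro A n hA
    have h1 := ac_le hK0 e m A n D he hA hD
    have hA0 : (0 : ℝ) ≤ A := Nat.cast_nonneg A
    calc |ac e m A n D| * (A : ℝ) ≤
        (8 * |Vk ((e : ℝ) ^ 2 * A / ((m : ℝ) * Real.sqrt D))| *
        ((n : ℝ) * Real.exp (-((n : ℝ) / A)))) * A := mul_le_mul_of_nonneg_right h1 hA0
      _ = _ := by ring
  have hnn : ∀ i : ℕ × ℕ, 0 ≤ |ac e m i.1 i.2 D| * (i.1 : ℝ) := fun i =>
    mul_nonneg (abs_nonneg _) (Nat.cast_nonneg _)
  have hin : ∀ A : ℕ, Summable (fun n : ℕ => |ac e m A n D| * (A : ℝ)) := by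
    intro A
    rcases Nat.eq_zero_or_pos A with hA | hA
    · rw [hA]
      simp only [ac_zero_left, abs_zero, zero_mul]
      exact summable_zero
    · exact Summable.of_nonneg_of_le (fun n => hnn (A, n)) (fun n => hF A n hA)
        ((hb A hA).1.mul_left _)
  rw [summable_prod_of_nonneg hnn]
  refine ⟨hin, ?_⟩
  obtain ⟨x, hx⟩ : ∃ x : ℝ, x = 6 * ((e : ℝ) ^ 2 / ((m : ℝ) * Real.sqrt D)) := ⟨_, rfl⟩
  have hx0 : 0 < x := by rw [hx]; positivity
  refine Summable.of_nonneg_of_le (fun A => tsum_nonneg fun n => hnn (A, n)) ?_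
    ((Real.summable_pow_mul_exp_neg_nat_mul 3 hx0).mul_left (8 * V * C))
  intro A
  rcases Nat.eq_zero_or_pos A with hA | hA
  · rw [hA]
    simp only [ac_zero_left, abs_zero, zero_mul, tsum_zero]
    positivity
  · have hA0 : (0 : ℝ) < A := by exact_mod_cast hA
    have h1 : |Vk ((e : ℝ) ^ 2 * A / ((m : ℝ) * Real.sqrt D))| ≤ V * Real.exp (-x * A) := by
      refine (hv _ (by positivity)).trans (le_of_eq ?_)
      rw [hx]
      congr 2
      ring
    calc ∑' n : ℕ, |ac e m A n D| * (A : ℝ)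
        ≤ ∑' n : ℕ, 8 * A * |Vk ((e : ℝ) ^ 2 * A / ((m : ℝ) * Real.sqrt D))| *
            ((n : ℝ) * Real.exp (-((n : ℝ) / A))) :=
          (hin A).tsum_le_tsum (fun n => hF A n hA) ((hb A hA).1.mul_left _)
      _ = 8 * A * |Vk ((e : ℝ) ^ 2 * A / ((m : ℝ) * Real.sqrt D))| *
            ∑' n : ℕ, ((n : ℝ) * Real.exp (-((n : ℝ) / A))) := tsum_mul_left
      _ ≤ 8 * A * (V * Real.exp (-x * A)) * (C * (A : ℝ) ^ 2) := by
          have h2 := (hb A hA).2
          gcongr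
      _ = 8 * V * C * ((A : ℝ) ^ 3 * Real.exp (-x * A)) := by ring

end Pool.Agent.H11.AD
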