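import Pool.Agent.H65.AD.TargetsA

/-!
# UCG: the sum over `e`, `A` for a pair `(r, t)`
-/

set_option autoImplicit false

namespace Pool.Agent.H11.AD

open Pool.Agent.H31.CN Pool.Agent.H95.AD Pool.Agent.H65.AD Pool.Agent.H50.CN

lemma prod_sqf {n : ℕ} (hn : Squarefree n) {T : Finset ℕ} (hT : ∀ p ∈ T, p.Prime)
    (hsub : n.primeFactors ⊆ T) : ∏ p ∈ T, p ^ (if p ∣ n then 1 else 0) = n := by
  have h1 : ∀ p ∈ T, p ^ (if p ∣ n then 1 else 0) = if p ∣ n then p else 1 := by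
    intro p _
    split_ifs <;> simp
  rw [Finset.prod_congr rfl h1, ← Finset.prod_filter]
  have h2 : T.filter (fun p => p ∣ n) = n.primeFactors := by
    ext p
    rw [Finset.mem_filter, Nat.mem_primeFactors]
    constructor
    · rintro ⟨h3, h4⟩
      exact ⟨hT p h3, h4, hn.ne_zero⟩
    · rintro ⟨h3, h4, h5⟩
      exact ⟨hsub (Nat.mem_primeFactors.2 ⟨h3, h4, h5⟩), h4⟩
  rw [h2]
  exact Nat.prod_primeFactors_of_squarefree hn

lemma prod_tt {a b : ℕ} (ha : Squarefree a) (hb : Squarefree b) {T : Finset ℕ}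
    (hT : ∀ p ∈ T, p.Prime) (h1 : a.primeFactors ⊆ T) (h2 : b.primeFactors ⊆ T) :
    ∏ p ∈ T, p ^ tt p a b = a * b := by
  unfold tt
  simp only [pow_add]
  rw [Finset.prod_mul_distrib, prod_sqf ha hT h1, prod_sqf hb hT h2]

theorem pf_UCG (hRPF : T_RPF) : T_UCG := by
  intro N n₁ n₂ m₁ m₂ r t x u hN hNs hn₁ hn₂ hm₁ hm₂ hc₁ hc₂ hrt hcr hu
  have hN0 : N ≠ 0 := by omega
  have hB0 : m₁ * m₂ * (r * t) ≠ 0 :=
    mul_ne_zero (mul_ne_zero hm₁.ne_zero hm₂.ne_zero) hrt.ne_zero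
  obtain ⟨A, hA⟩ : ∃ A : Finset ℕ, A = N.primeFactors := ⟨_, rfl⟩
  obtain ⟨B, hB⟩ : ∃ B : Finset ℕ, B = (m₁ * m₂ * (r * t)).primeFactors := ⟨_, rfl⟩
  have hAp : ∀ p ∈ A, p.Prime ∧ p ∣ N := by
    intro p hp
    rw [hA, Nat.mem_primeFactors] at hp
    exact ⟨hp.1, hp.2.1⟩
  have hBp : ∀ p ∈ B, p.Prime ∧ ¬ p ∣ N := by
    intro p hp
    rw [hB, Nat.mem_primeFactors] at hp
    refine ⟨hp.1, fun h => ?_⟩
    have h3 : Nat.Coprime (m₁ * m₂ * (r * t)) N :=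
      Nat.Coprime.mul_left (Nat.Coprime.mul_left hc₁ hc₂) hcr
    exact Nat.not_coprime_of_dvd_of_dvd hp.1.one_lt hp.2.1 h h3
  have hdis : Disjoint A B := by
    rw [Finset.disjoint_left]
    intro p h1 h2
    exact (hBp p h2).2 (hAp p h1).2
  set q : ℕ → ℕ → ℕ → ℝ := fun p => if p ∣ N then qT (x p) (tt p n₁ n₂) else
    ec (cl r t p) (tt p m₁ m₂) with hq
  set j : ℕ → ℕ := fun p => if p ∣ N then tt p n₁ n₂ else tt p m₁ m₂ with hj
  have hqA : ∀ p ∈ A, q p = qT (x p) (tt p n₁ n₂) := fun p hp => if_pos (hAp p hp).2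
  have hqB : ∀ p ∈ B, q p = ec (cl r t p) (tt p m₁ m₂) := fun p hp => if_neg (hBp p hp).2
  have hjA : ∀ p ∈ A, j p = tt p n₁ n₂ := fun p hp => if_pos (hAp p hp).2
  have hjB : ∀ p ∈ B, j p = tt p m₁ m₂ := fun p hp => if_neg (hBp p hp).2
  have h := hRPF (A ∪ B) q j u (by
    intro p hp
    rcases Finset.mem_union.1 hp with h | h
    · exact (hAp p h).1
    · exact (hBp p h).1) hu
  have e1 : ∏ p ∈ A ∪ B, p ^ j p = n₁ * n₂ * (m₁ * m₂) := by
    rw [Finset.prod_union hdis, Finset.prod_congr rfl (fun p hp => by rw [hjA p hp]),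
      Finset.prod_congr (s₁ := B) rfl (fun p hp => by rw [hjB p hp])]
    rw [prod_tt (hNs.squarefree_of_dvd hn₁) (hNs.squarefree_of_dvd hn₂)
      (fun p hp => (hAp p hp).1) (by rw [hA]; exact Nat.primeFactors_mono hn₁ hN0)
      (by rw [hA]; exact Nat.primeFactors_mono hn₂ hN0)]
    rw [prod_tt hm₁ hm₂ (fun p hp => (hBp p hp).1)
      (by rw [hB]; exact Nat.primeFactors_mono ⟨m₂ * (r * t), by ring⟩ hB0)
      (by rw [hB]; exact Nat.primeFactors_mono ⟨m₁ * (r * t), by ring⟩ hB0)]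
  have e2 : ∀ y : ℕ × ℕ, ∏ p ∈ A ∪ B, loc (q p) p y.1 y.2 =
      lN N x n₁ n₂ y.1 y.2 * LL r t m₁ m₂ y.1 y.2 := by
    intro y
    rw [Finset.prod_union hdis, Finset.prod_congr rfl (fun p hp => by rw [hqA p hp]),
      Finset.prod_congr (s₁ := B) rfl (fun p hp => by rw [hqB p hp])]
    rw [hA, hB]
    rfl
  have e3 : ∏ p ∈ A ∪ B, gel (q p) (j p) p =
      (∏ p ∈ N.primeFactors, gel (qT (x p) (tt p n₁ n₂)) (tt p n₁ n₂) p) *
        LG r t m₁ m₂ := by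
    rw [Finset.prod_union hdis,
      Finset.prod_congr rfl (fun p hp => by rw [hqA p hp, hjA p hp]),
      Finset.prod_congr (s₁ := B) rfl (fun p hp => by rw [hqB p hp, hjB p hp])]
    rw [hA, hB]
    rfl
  rw [e1, e3] at h
  simp only [e2] at h
  simp only [mul_assoc] at h ⊢
  exact h

end Pool.Agent.H11.AD
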