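import Pool.Agent.H95.AD.TargetsU

/-!
# UFM: the mean square of the oscillating part for one pair
-/

set_option autoImplicit false

open Pool.Agent.H31.CN Pool.Agent.H95.AD

namespace Pool.Agent.H11.AD

lemma ufm_one {CU ε : ℝ} (hCU : 0 < CU)
    (hU : ∀ a e m Y : ℕ, 1 ≤ a → 1 ≤ e → 1 ≤ m → 1 ≤ Y → m ≤ a * e ^ 2 →
      ∑ D ∈ Finset.Ico Y (2 * Y), UU a e m D ^ 2 ≤
        CU * (Y : ℝ) ^ (1 / 2 + ε / 4) * (m : ℝ) ^ (ε / 4) * (e : ℝ) ^ (-(2 + ε / 4)) *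
          (1 + a / Real.sqrt Y))
    (hNWE : T_NWE) {m₁ m₂ Y : ℕ} (h1 : Squarefree m₁) (h2 : Squarefree m₂) (hY : 1 ≤ Y)
    (hm : 1 ≤ m₁ * m₂) (e a : ℕ) (he : 1 ≤ e) (ha : a ∈ (m₁ * m₂).divisors) :
    ∑ D ∈ (Finset.Ico Y (2 * Y)).filter (fun D => 3 < D ∧ D % 4 = 3 ∧ Squarefree D),
      (cf m₁ m₂ D e a * UU a e (m₁ * m₂) D) ^ 2 ≤
    (4 ^ (m₁ * m₂).primeFactors.card * Real.sqrt (CU * (Y : ℝ) ^ (1 / 2 + ε / 4) *
      ((m₁ * m₂ : ℕ) : ℝ) ^ (ε / 4) * (1 + ((m₁ * m₂ : ℕ) : ℝ) / Real.sqrt Y)) *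
      (e : ℝ) ^ (-(1 + ε / 8))) ^ 2 := by
  have hnn : 0 ≤ CU * (Y : ℝ) ^ (1 / 2 + ε / 4) *
      ((m₁ * m₂ : ℕ) : ℝ) ^ (ε / 4) * (1 + ((m₁ * m₂ : ℕ) : ℝ) / Real.sqrt Y) := by positivity
  have ha' := Nat.mem_divisors.1 ha
  have ha1 : 1 ≤ a := Nat.pos_of_ne_zero (by
    rintro rfl
    have := ha'.1
    rw [zero_dvd_iff] at this
    omega)
  have ham : a ≤ m₁ * m₂ := Nat.le_of_dvd hm ha'.1
  by_cases hdv : m₁ * m₂ ∣ a * e ^ 2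
  · have hle : m₁ * m₂ ≤ a * e ^ 2 := Nat.le_of_dvd (by positivity) hdv
    have h3 := hU a e (m₁ * m₂) Y ha1 he hm hY hle
    have h4 : ∀ D ∈ (Finset.Ico Y (2 * Y)).filter (fun D => 3 < D ∧ D % 4 = 3 ∧ Squarefree D),
        (cf m₁ m₂ D e a * UU a e (m₁ * m₂) D) ^ 2 ≤
          (4 ^ (m₁ * m₂).primeFactors.card) ^ 2 * UU a e (m₁ * m₂) D ^ 2 := by
      intro D hD
      obtain ⟨_, hD1, hD2, hD3⟩ := Finset.mem_filter.1 hD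
      have h5 := ((hNWE m₁ m₂ D e h1 h2 hD1 hD2 hD3 he).2 a ha).1
      rw [mul_pow]
      refine mul_le_mul_of_nonneg_right ?_ (sq_nonneg _)
      rw [← sq_abs (cf m₁ m₂ D e a)]
      exact pow_le_pow_left₀ (abs_nonneg _) h5 2
    have h6 : ∑ D ∈ (Finset.Ico Y (2 * Y)).filter (fun D => 3 < D ∧ D % 4 = 3 ∧ Squarefree D),
        UU a e (m₁ * m₂) D ^ 2 ≤ ∑ D ∈ Finset.Ico Y (2 * Y), UU a e (m₁ * m₂) D ^ 2 :=
      Finset.sum_le_sum_of_subset_of_nonneg (Finset.filter_subset _ _)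
        (fun _ _ _ => sq_nonneg _)
    have h7 : ((e : ℝ) ^ (-(1 + ε / 8))) ^ 2 = (e : ℝ) ^ (-(2 + ε / 4)) := by
      rw [← Real.rpow_natCast, ← Real.rpow_mul (Nat.cast_nonneg _)]
      congr 1
      push_cast
      ring
    have h8 : (a : ℝ) / Real.sqrt Y ≤ ((m₁ * m₂ : ℕ) : ℝ) / Real.sqrt Y :=
      div_le_div_of_nonneg_right (by exact_mod_cast ham) (Real.sqrt_nonneg _)
    calc ∑ D ∈ (Finset.Ico Y (2 * Y)).filter (fun D => 3 < D ∧ D % 4 = 3 ∧ Squarefree D),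
          (cf m₁ m₂ D e a * UU a e (m₁ * m₂) D) ^ 2
        ≤ ∑ D ∈ (Finset.Ico Y (2 * Y)).filter (fun D => 3 < D ∧ D % 4 = 3 ∧ Squarefree D),
          (4 ^ (m₁ * m₂).primeFactors.card) ^ 2 * UU a e (m₁ * m₂) D ^ 2 := Finset.sum_le_sum h4
      _ = (4 ^ (m₁ * m₂).primeFactors.card) ^ 2 *
          ∑ D ∈ (Finset.Ico Y (2 * Y)).filter (fun D => 3 < D ∧ D % 4 = 3 ∧ Squarefree D),
            UU a e (m₁ * m₂) D ^ 2 := by rw [Finset.mul_sum]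
      _ ≤ (4 ^ (m₁ * m₂).primeFactors.card) ^ 2 * (CU * (Y : ℝ) ^ (1 / 2 + ε / 4) *
          ((m₁ * m₂ : ℕ) : ℝ) ^ (ε / 4) * (e : ℝ) ^ (-(2 + ε / 4)) *
          (1 + ((m₁ * m₂ : ℕ) : ℝ) / Real.sqrt Y)) := by
          refine mul_le_mul_of_nonneg_left ((h6.trans h3).trans ?_) (by positivity)
          refine mul_le_mul_of_nonneg_left (by linarith) (by positivity)
      _ = _ := by
          rw [mul_pow, mul_pow, Real.sq_sqrt hnn, h7]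
          ring
  · have h4 : ∀ D ∈ (Finset.Ico Y (2 * Y)).filter (fun D => 3 < D ∧ D % 4 = 3 ∧ Squarefree D),
        (cf m₁ m₂ D e a * UU a e (m₁ * m₂) D) ^ 2 = 0 := by
      intro D hD
      obtain ⟨_, hD1, hD2, hD3⟩ := Finset.mem_filter.1 hD
      have h5 := ((hNWE m₁ m₂ D e h1 h2 hD1 hD2 hD3 he).2 a ha).2
      have h6 : cf m₁ m₂ D e a = 0 := by
        by_contra hc
        exact hdv (h5 hc)
      rw [h6]
      ring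
    rw [Finset.sum_eq_zero h4]
    exact sq_nonneg _

theorem pf_UFM (hMIK : T_MIK) (hUMS : T_UMS) (hUFS : T_UFS) (hNWE : T_NWE) (hDVB : T_DVB) :
    T_UFM := by
  intro ε hε hε1
  obtain ⟨CU, hCU, hU⟩ := hUMS (ε / 4) (by linarith) (by linarith)
  obtain ⟨Cd, hCd, hd⟩ := hDVB (ε / 8) (by linarith)
  set g : ℕ → ℝ := fun e => (e : ℝ) ^ (-(1 + ε / 8)) with hgdef
  have hg : Summable g := Real.summable_nat_rpow.2 (by linarith)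
  have hg0 : ∀ e, 0 ≤ g e := fun e => Real.rpow_nonneg (Nat.cast_nonneg _) _
  set S := ∑' e, g e with hS
  have hS0 : 0 ≤ S := tsum_nonneg hg0
  refine ⟨CU * (S ^ 2 + 1) * Cd ^ 4, by positivity, ?_⟩
  intro m₁ m₂ Y h1 h2 hY
  have hm : 1 ≤ m₁ * m₂ := Nat.one_le_iff_ne_zero.2 (mul_ne_zero h1.ne_zero h2.ne_zero)
  have hcast : ((m₁ * m₂ : ℕ) : ℝ) = (m₁ : ℝ) * m₂ := by push_cast; ring
  have hmR : (1 : ℝ) ≤ ((m₁ * m₂ : ℕ) : ℝ) := by exact_mod_cast hm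
  have hYR : (1 : ℝ) ≤ (Y : ℝ) := by exact_mod_cast hY
  set s := (Finset.Ico Y (2 * Y)).filter (fun D => 3 < D ∧ D % 4 = 3 ∧ Squarefree D) with hs
  set mR : ℝ := ((m₁ * m₂ : ℕ) : ℝ) with hmRdef
  set K₁ : ℝ := 4 ^ (m₁ * m₂).primeFactors.card * Real.sqrt (CU * (Y : ℝ) ^ (1 / 2 + ε / 4) *
      mR ^ (ε / 4) * (1 + mR / Real.sqrt Y)) with hK₁
  have hK₁0 : 0 ≤ K₁ := by positivity
  set h : ℕ → ℝ := fun a => if a ∈ (m₁ * m₂).divisors then 1 else 0 with hh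
  have hh0 : ∀ a, 0 ≤ h a := by
    intro a
    simp only [hh]
    split_ifs <;> norm_num
  have hhS : Summable h := by
    refine summable_of_ne_finset_zero (s := (m₁ * m₂).divisors) ?_
    intro a ha
    simp only [hh, if_neg ha]
  have hht : ∑' a, h a = tau (m₁ * m₂) := by
    rw [tsum_eq_sum (s := (m₁ * m₂).divisors) (fun a ha => by simp only [hh, if_neg ha])]
    rw [Finset.sum_congr rfl (fun a ha => show h a = 1 by simp only [hh, if_pos ha])]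
    simp [tau]
  set F : ℕ × ℕ → ℕ → ℝ := fun x D => if 1 ≤ x.1 ∧ x.2 ∈ (m₁ * m₂).divisors then
      cf m₁ m₂ D x.1 x.2 * UU x.2 x.1 (m₁ * m₂) D else 0 with hF
  set b : ℕ × ℕ → ℝ := fun x => K₁ * (g x.1 * h x.2) with hb
  have hgh : Summable (fun x : ℕ × ℕ => g x.1 * h x.2) :=
    Summable.mul_of_nonneg hg hhS hg0 hh0
  have hbS : Summable b := hgh.mul_left K₁
  have hb0 : ∀ x, 0 ≤ b x := fun x => mul_nonneg hK₁0 (mul_nonneg (hg0 _) (hh0 _))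
  have hbt : ∑' x, b x = K₁ * (S * tau (m₁ * m₂)) := by
    simp only [hb]
    rw [tsum_mul_left, ← hht, hS, hg.tsum_mul_tsum hhS hgh]
  have hFb : ∀ x, ∑ D ∈ s, F x D ^ 2 ≤ b x ^ 2 := by
    intro x
    by_cases hx : 1 ≤ x.1 ∧ x.2 ∈ (m₁ * m₂).divisors
    · have h3 := ufm_one hCU hU hNWE h1 h2 hY hm x.1 x.2 hx.1 hx.2
      simp only [hF, if_pos hx]
      refine h3.trans (le_of_eq ?_)
      simp only [hb, hh, if_pos hx.2, mul_one, hK₁, hgdef]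
      rfl
    · simp only [hF, if_neg hx]
      have : ∑ D ∈ s, (0 : ℝ) ^ 2 = 0 := by simp
      rw [this]
      exact sq_nonneg _
  obtain ⟨hM1, hM2⟩ := hMIK (ℕ × ℕ) s F b hb0 hbS hFb
  have hle : ∀ D ∈ s, (Uf m₁ m₂ D - Uc m₁ m₂ D) ^ 2 ≤ (∑' x, |F x D|) ^ 2 := by
    intro D hD
    obtain ⟨_, hD1, hD2, hD3⟩ := Finset.mem_filter.1 hD
    have h3 := (hUFS m₁ m₂ D h1 h2 hD1 hD2 hD3).2
    rw [h3]
    have h4 : |∑' x, F x D| ≤ ∑' x, |F x D| := by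
      have := norm_tsum_le_tsum_norm (f := fun x => F x D) (hM1 D hD)
      simpa only [Real.norm_eq_abs] using this
    rw [← sq_abs (∑' x : ℕ × ℕ, if 1 ≤ x.1 ∧ x.2 ∈ (m₁ * m₂).divisors then
      cf m₁ m₂ D x.1 x.2 * UU x.2 x.1 (m₁ * m₂) D else 0)]
    exact pow_le_pow_left₀ (abs_nonneg _) h4 2
  obtain ⟨hd1, _, hd3⟩ := hd (m₁ * m₂) hm
  have htau0 : 0 ≤ tau (m₁ * m₂) := Nat.cast_nonneg _
  have hm8 : 0 ≤ mR ^ (ε / 8) := by positivity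
  have hK₁sq : K₁ ^ 2 = (4 ^ (m₁ * m₂).primeFactors.card) ^ 2 *
      (CU * (Y : ℝ) ^ (1 / 2 + ε / 4) * mR ^ (ε / 4) * (1 + mR / Real.sqrt Y)) := by
    rw [hK₁, mul_pow, Real.sq_sqrt (by positivity)]
  have hp1 : (mR ^ (ε / 8)) ^ 4 * mR ^ (ε / 4) ≤ mR ^ ε := by
    rw [← Real.rpow_natCast, ← Real.rpow_mul (by positivity), ← Real.rpow_add (by positivity)]
    refine Real.rpow_le_rpow_of_exponent_le hmR ?_
    push_cast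
    linarith
  have hp2 : (Y : ℝ) ^ (1 / 2 + ε / 4) ≤ (Y : ℝ) ^ (1 / 2 + ε) :=
    Real.rpow_le_rpow_of_exponent_le hYR (by linarith)
  have hsq1 : (4 ^ (m₁ * m₂).primeFactors.card : ℝ) ^ 2 ≤ (Cd * mR ^ (ε / 8)) ^ 2 :=
    pow_le_pow_left₀ (by positivity) hd3 2
  have hsq2 : tau (m₁ * m₂) ^ 2 ≤ (Cd * mR ^ (ε / 8)) ^ 2 :=
    pow_le_pow_left₀ htau0 hd1 2
  rw [← hcast]
  calc ∑ D ∈ s, (Uf m₁ m₂ D - Uc m₁ m₂ D) ^ 2
      ≤ ∑ D ∈ s, (∑' x, |F x D|) ^ 2 := Finset.sum_le_sum hle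
    _ ≤ (∑' x, b x) ^ 2 := hM2
    _ = K₁ ^ 2 * (S ^ 2 * tau (m₁ * m₂) ^ 2) := by rw [hbt]; ring
    _ ≤ K₁ ^ 2 * ((S ^ 2 + 1) * (Cd * mR ^ (ε / 8)) ^ 2) := by
        refine mul_le_mul_of_nonneg_left ?_ (sq_nonneg _)
        exact mul_le_mul (by linarith) hsq2 (sq_nonneg _) (by positivity)
    _ = (4 ^ (m₁ * m₂).primeFactors.card) ^ 2 *
      ((CU * (Y : ℝ) ^ (1 / 2 + ε / 4) * mR ^ (ε / 4) * (1 + mR / Real.sqrt Y)) *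
        ((S ^ 2 + 1) * (Cd * mR ^ (ε / 8)) ^ 2)) := by rw [hK₁sq]; ring
    _ ≤ (Cd * mR ^ (ε / 8)) ^ 2 *
      ((CU * (Y : ℝ) ^ (1 / 2 + ε / 4) * mR ^ (ε / 4) * (1 + mR / Real.sqrt Y)) *
        ((S ^ 2 + 1) * (Cd * mR ^ (ε / 8)) ^ 2)) :=
        mul_le_mul_of_nonneg_right hsq1 (by positivity)
    _ = CU * (S ^ 2 + 1) * Cd ^ 4 * (Y : ℝ) ^ (1 / 2 + ε / 4) *
        ((mR ^ (ε / 8)) ^ 4 * mR ^ (ε / 4)) * (1 + mR / Real.sqrt Y) := by ring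
    _ ≤ CU * (S ^ 2 + 1) * Cd ^ 4 * (Y : ℝ) ^ (1 / 2 + ε) * mR ^ ε *
        (1 + mR / Real.sqrt Y) := by
        refine mul_le_mul_of_nonneg_right ?_ (by positivity)
        exact mul_le_mul (mul_le_mul_of_nonneg_left hp2 (by positivity)) hp1 (by positivity)
          (by positivity)

end Pool.Agent.H11.AD
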